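import Pool.Agent.MP_a550d9_nt.H38.Glue

namespace Pool.Agent.Results.MP_a550d9_nt.DenseIndependence

open Pool.Agent.MP_a550d9_nt

/-- Either `M(N) = Ω±(√(N log log log N))`, or for all `ε > 0`, `A` and large `T`, every set `P` of
ordinates in `(0, T]` with at least `ε 2 ^ j j` elements up to `2 ^ j` for `ε log T` values of `j`
has a nontrivial relation with coefficients in `[-2, 2]` to within `exp (-T ^ A)`. -/
theorem result :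
    (∃ c : ℝ, 0 < c ∧ ∀ X : ℕ,
      (∃ N : ℕ, X ≤ N ∧
        c * Real.sqrt ((N : ℝ) * Real.log (Real.log (Real.log (N : ℝ)))) ≤
          (((∑ n ∈ Finset.Icc 1 N, ArithmeticFunction.moebius n : ℤ)) : ℝ)) ∧
      (∃ N : ℕ, X ≤ N ∧
        (((∑ n ∈ Finset.Icc 1 N, ArithmeticFunction.moebius n : ℤ)) : ℝ) ≤
          -(c * Real.sqrt ((N : ℝ) * Real.log (Real.log (Real.log (N : ℝ))))))) ∨
    ∀ ε A : ℝ, 0 < ε → ∃ T₀ : ℝ, ∀ T : ℝ, T₀ ≤ T → ∀ (P : Finset ℝ) (J : Finset ℕ),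
      (∀ p ∈ P, riemannZeta (1 / 2 + Complex.I * p) = 0 ∧ 0 < p ∧ p ≤ T) →
      (∀ j ∈ J, (2 : ℝ) ^ j ≤ T ∧ ε * 2 ^ j * j ≤ ((P.filter fun p => p ≤ 2 ^ j).card : ℝ)) →
      ε * Real.log T ≤ J.card →
      ∃ c : ℝ → ℤ, (∀ p ∈ P, |c p| ≤ 2) ∧ (∃ p ∈ P, c p ≠ 0) ∧
        |∑ p ∈ P, (c p : ℝ) * p| < Real.exp (-T ^ A) := by
  refine or_iff_not_imp_right.2 fun h => ?_
  obtain ⟨ε, h⟩ := not_forall.1 h
  obtain ⟨A, h⟩ := not_forall.1 h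
  obtain ⟨hε, h⟩ := Classical.not_imp.1 h
  have hI : ∀ T₀ : ℝ, ∃ T : ℝ, T₀ ≤ T ∧ ∃ (P : Finset ℝ) (J : Finset ℕ),
      (∀ p ∈ P, H28.z1 p = 0 ∧ 0 < p ∧ p ≤ T) ∧ (∀ j ∈ J, (2 : ℝ) ^ j ≤ T ∧ H38.Cum P ε j) ∧
      ε * Real.log T ≤ J.card ∧ H38.Dis P (Real.exp (-T ^ A)) := fun T₀ => by
    by_contra hc
    refine h ⟨T₀, fun T hT P J a1 a2 a3 => ?_⟩
    by_contra hd
    refine hc ⟨T, hT, P, J, by simpa only [H28.z1_real_eq_zero] using a1, a2, a3,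
      fun c b1 b2 => not_lt.1 fun b3 => hd ⟨c, b1, b2, b3⟩⟩
  obtain ⟨c, c0, h1⟩ := H38.fin1 H38.master_of (Or.inl rfl) hε hI
  obtain ⟨d, d0, h2⟩ := H38.fin1 H38.master_of (Or.inr rfl) hε hI
  refine ⟨min c d, lt_min c0 d0, fun X => ⟨?_, ?_⟩⟩
  · obtain ⟨N, a1, a2⟩ := h1 X
    refine ⟨N, a1, (mul_le_mul_of_nonneg_right (min_le_left _ _) (Real.sqrt_nonneg _)).trans ?_⟩
    simpa only [one_mul, H28.Mer] using a2
  · obtain ⟨N, a1, a2⟩ := h2 X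
    refine ⟨N, a1, ?_⟩
    have := mul_le_mul_of_nonneg_right (min_le_right c d)
      (Real.sqrt_nonneg ((N : ℝ) * Real.log (Real.log (Real.log (N : ℝ)))))
    unfold H28.Mer at a2
    linarith

end Pool.Agent.Results.MP_a550d9_nt.DenseIndependence
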