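import Pool.Agent.MP_a550d9_nt.H28.Glue

namespace Pool.Agent.Results.MP_a550d9_nt.RelationDichotomy

open Pool.Agent.MP_a550d9_nt.H28

/-- For `κ ≥ 1`, either `M(N) = Ω±(√N (log log log N) ^ (1/κ))`, or for every `A` and all large `T`
the ordinates of the zeros on the critical line satisfy a nontrivial near-relation
`∑ P₁ - ∑ P₂ ≈ g` with `P₁, P₂` in `[T ^ (1/10), T]` and error below `exp (-exp (A (log T) ^ κ))`. -/
theorem result : ∀ κ : ℝ, 1 ≤ κ →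
    (∃ c : ℝ, 0 < c ∧ ∀ X : ℕ,
      (∃ N : ℕ, X ≤ N ∧ c * Real.sqrt N * Real.log (Real.log (Real.log N)) ^ (1 / κ) ≤
        ((∑ n ∈ Finset.Icc 1 N, ArithmeticFunction.moebius n : ℤ) : ℝ)) ∧
      (∃ N : ℕ, X ≤ N ∧ ((∑ n ∈ Finset.Icc 1 N, ArithmeticFunction.moebius n : ℤ) : ℝ) ≤
        -(c * Real.sqrt N * Real.log (Real.log (Real.log N)) ^ (1 / κ)))) ∨
    ∀ A : ℝ, ∃ T₀ : ℝ, ∀ T : ℝ, T₀ ≤ T → ∃ (P₁ P₂ : Finset ℝ) (g : ℝ),
      (∀ p ∈ P₁ ∪ P₂, riemannZeta (1 / 2 + Complex.I * p) = 0 ∧ T ^ (1 / 10 : ℝ) ≤ p ∧ p ≤ T) ∧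
      Disjoint P₁ P₂ ∧ (P₁ ∪ P₂).Nonempty ∧
      (g = 0 ∨ riemannZeta (1 / 2 + Complex.I * g) = 0 ∧ 0 < g ∧ g ≤ T) ∧
      ¬ (P₁ = {g} ∧ P₂ = ∅) ∧
      |∑ p ∈ P₁, p - ∑ p ∈ P₂, p - g| < Real.exp (-Real.exp (A * Real.log T ^ κ)) := by
  intro κ hκ
  refine or_iff_not_imp_right.2 fun h => ?_
  obtain ⟨A, hA⟩ := not_forall.1 h
  have hI : ∀ T₀ : ℝ, ∃ T : ℝ, T₀ ≤ T ∧
      Ind T (Real.exp (-Real.exp (max A 1 * Real.log T ^ κ))) := fun T₀ => by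
    by_contra hc
    refine hA ⟨max T₀ 1, fun T hT => ?_⟩
    by_contra hd
    refine hc ⟨T, (le_max_left _ _).trans hT, fun P₁ P₂ a1 a2 a3 g a4 a5 => ?_⟩
    simp only [z1_real_eq_zero] at a1 a4
    refine le_trans ?_ (not_lt.1 fun a6 => hd ⟨P₁, P₂, g, a1, a2, a3, a4, a5, a6⟩)
    exact Real.exp_le_exp.2 (neg_le_neg (Real.exp_le_exp.2 (mul_le_mul_of_nonneg_right
      (le_max_left _ _) (Real.rpow_nonneg (Real.log_nonneg ((le_max_right _ _).trans hT)) _))))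
  obtain ⟨c, c0, h1⟩ := thmB (Or.inl rfl) hκ (le_max_right A 1) hI
  obtain ⟨d, d0, h2⟩ := thmB (Or.inr rfl) hκ (le_max_right A 1) hI
  obtain ⟨N₂, h3⟩ := Filter.eventually_atTop.1 (FinA.ev_ll 3)
  have key : ∀ a : ℝ, min c d ≤ a → ∀ N : ℕ, N₂ ≤ N →
      min c d * Real.sqrt N * Real.log (Real.log (Real.log N)) ^ (1 / κ) ≤
        a * Real.sqrt N * Real.log (Real.log (Real.log N)) ^ (1 / κ) := fun a ha N hN =>
    mul_le_mul_of_nonneg_right (mul_le_mul_of_nonneg_right ha (Real.sqrt_nonneg _))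
      (Real.rpow_nonneg (by linarith [FinA.one_le_log (h3 N hN)]) _)
  refine ⟨min c d, lt_min c0 d0, fun X => ⟨?_, ?_⟩⟩
  · obtain ⟨N, a1, a2⟩ := h1 (X + N₂)
    refine ⟨N, by omega, (key c (min_le_left _ _) N (by omega)).trans ?_⟩
    simpa only [one_mul, Mer] using a2
  · obtain ⟨N, a1, a2⟩ := h2 (X + N₂)
    refine ⟨N, by omega, ?_⟩
    have := key d (min_le_right _ _) N (by omega)
    unfold Mer at a2
    linarith

end Pool.Agent.Results.MP_a550d9_nt.RelationDichotomy
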