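import Pool.Agent.MP_a550d9_nt.H28.Glue

namespace Pool.Agent.Results.MP_a550d9_nt.ShortJump

/-- For arbitrarily large `N` there is `h ≤ N (log log log N) ^ 3 / log log N` such that the sum of
`μ` over `(N, N + h]` is at least `√N / 2`; likewise at most `-√N / 2`. -/
theorem result : ∀ X : ℕ,
    (∃ N h : ℕ, X ≤ N ∧
      (h : ℝ) ≤ N * Real.log (Real.log (Real.log N)) ^ 3 / Real.log (Real.log N) ∧
      Real.sqrt N / 2 ≤
        ((∑ n ∈ Finset.Ioc N (N + h), ArithmeticFunction.moebius n : ℤ) : ℝ)) ∧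
    (∃ N h : ℕ, X ≤ N ∧
      (h : ℝ) ≤ N * Real.log (Real.log (Real.log N)) ^ 3 / Real.log (Real.log N) ∧
      ((∑ n ∈ Finset.Ioc N (N + h), ArithmeticFunction.moebius n : ℤ) : ℝ) ≤
        -(Real.sqrt N / 2)) := by
  intro X
  obtain ⟨N, h, h1, h2, h3⟩ := Pool.Agent.MP_a550d9_nt.H28.thmA (Or.inl rfl) X
  obtain ⟨N', h', h1', h2', h3'⟩ := Pool.Agent.MP_a550d9_nt.H28.thmA (Or.inr rfl) X
  rw [Pool.Agent.MP_a550d9_nt.H28.Mer_sub] at h3 h3'
  exact ⟨⟨N, h, h1, h2, by linarith⟩, ⟨N', h', h1', h2', by linarith⟩⟩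

end Pool.Agent.Results.MP_a550d9_nt.ShortJump
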