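import Pool.Agent.MP_a550d9_nt.H38.Glue

namespace Pool.Agent.Results.MP_a550d9_nt.SparseIndependentSets

open Pool.Agent.MP_a550d9_nt

/-- Either `M(N) / √N` is unbounded above and below, or every set `P` of ordinates without a
nontrivial relation with coefficients in `[-2, 2]` is sparse at most scales: the `j` for which `P`
has at least `δ 2 ^ j j` elements up to `2 ^ j` satisfy `∑ j ^ (-1/2) ≤ K δ ^ (-5/2)`. -/
theorem result :
    (∀ C : ℝ,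
      (∃ N : ℕ, C * Real.sqrt N < ((∑ n ∈ Finset.Icc 1 N, ArithmeticFunction.moebius n : ℤ) : ℝ)) ∧
      (∃ N : ℕ, ((∑ n ∈ Finset.Icc 1 N, ArithmeticFunction.moebius n : ℤ) : ℝ) <
        -(C * Real.sqrt N))) ∨
    ∃ K : ℝ, ∀ (P : Finset ℝ) (J : Finset ℕ) (δ : ℝ), 0 < δ → δ ≤ 1 →
      (∀ p ∈ P, riemannZeta (1 / 2 + Complex.I * p) = 0 ∧ 0 < p) →
      (∀ c : ℝ → ℤ, (∀ p ∈ P, |c p| ≤ 2) → ∑ p ∈ P, (c p : ℝ) * p = 0 → ∀ p ∈ P, c p = 0) →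
      (∀ j ∈ J, δ * 2 ^ j * j ≤ ((P.filter fun p => p ≤ 2 ^ j).card : ℝ)) →
      ∑ j ∈ J, 1 / Real.sqrt j ≤ K / δ ^ (5 / 2 : ℝ) := by
  refine or_iff_not_imp_left.2 fun h => ?_
  obtain ⟨C, h⟩ := not_forall.1 h
  obtain ⟨e, he, H⟩ : ∃ e : ℝ, (e = 1 ∨ e = -1) ∧ ∀ N : ℕ, e * H28.Mer N ≤ C * √N := by
    rcases not_and_or.1 h with h | h
    · exact ⟨1, Or.inl rfl, fun N => by
        rw [one_mul]
        exact not_lt.1 fun h' => h ⟨N, h'⟩⟩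
    · exact ⟨-1, Or.inr rfl, fun N => by
        have := not_lt.1 fun h' => h ⟨N, h'⟩
        unfold H28.Mer
        linarith⟩
  obtain ⟨K, hK⟩ := H38.fin2 H38.master_of he H
  refine ⟨K, fun P J δ d0 d1 a1 a2 a3 => ?_⟩
  rw [le_div_iff₀ (by positivity), show (5 / 2 : ℝ) = (2 : ℕ) + 1 / 2 by norm_num,
    Real.rpow_add d0, Real.rpow_natCast, ← Real.sqrt_eq_rpow, mul_comm]
  exact hK P J δ d0 d1 (by simpa only [H28.z1_real_eq_zero] using a1) a2 a3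

end Pool.Agent.Results.MP_a550d9_nt.SparseIndependentSets
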